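import Pool.Agent.Lib.MP_0eb725_nt.C01_Final

set_option autoImplicit false

namespace Pool.Agent.Results.MP_0eb725_nt.ExistenceAllOddWeights

/-- **Existence part of Broadhurst's conjecture, all odd weights.** For odd `w > 1` let `G_k`,
`1 ≤ k ≤ (w-1)/2`, be the limit as `N → ∞` of the sums over `N > n₁ > n₂ ≥ 1` of
`ρ^(n₂-n₁)/(n₁^(w-2k) n₂^(2k))`, `ρ = e^(iπ/3)`. Then some integer combination `∑ c_k Im G_k`, with the
integers `c_k` not all zero, is a rational multiple of `π^w`. -/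
theorem result : ∀ w : ℕ, Odd w → 1 < w → ∀ G : ℕ → ℂ,
    (∀ k : ℕ, 1 ≤ k → 2 * k + 1 ≤ w →
      Filter.Tendsto (fun N : ℕ => ∑ n₁ ∈ Finset.Ico 1 N, ∑ n₂ ∈ Finset.Ico 1 n₁,
          Complex.exp (-((Real.pi / 3 : ℝ) : ℂ) * Complex.I * (n₁ : ℂ)) *
            Complex.exp (((Real.pi / 3 : ℝ) : ℂ) * Complex.I * (n₂ : ℂ)) /
            ((n₁ : ℂ) ^ (w - 2 * k) * (n₂ : ℂ) ^ (2 * k)))
        Filter.atTop (nhds (G k))) →
    ∃ c : ℕ → ℤ, (∃ k ∈ Finset.Icc 1 ((w - 1) / 2), c k ≠ 0) ∧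
      ∃ q : ℚ, ∑ k ∈ Finset.Icc 1 ((w - 1) / 2), (c k : ℝ) * (G k).im = (q : ℝ) * Real.pi ^ w := by
  intro w hodd hw G hG
  exact Pool.MP0eb725.existence w hodd hw G hG

end Pool.Agent.Results.MP_0eb725_nt.ExistenceAllOddWeights
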